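import Mathlib

set_option autoImplicit false
set_option maxHeartbeats 400000

/-! # Finite generation of a domain, given enough approximation -/

namespace Pool.Agent.R738.FG

open scoped TensorProduct

variable {k A : Type*} [Field k] [CommRing A] [Algebra k A]

/-- Elements `a` with `f ^ n * a ∈ B`. -/
def Am (B : Subalgebra k A) (f : A) (hf : f ∈ B) (n : ℕ) : Submodule B A where
  carrier := {a | f ^ n * a ∈ B}
  add_mem' := by
    intro a b ha hb
    simp only [Set.mem_ofPred_eq] at ha hb ⊢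
    rw [mul_add]
    exact B.add_mem ha hb
  zero_mem' := by
    simp only [Set.mem_ofPred_eq, mul_zero]
    exact B.zero_mem
  smul_mem' := by
    intro c a ha
    simp only [Set.mem_ofPred_eq] at ha ⊢
    rw [Subalgebra.smul_def, smul_eq_mul, mul_left_comm]
    exact B.mul_mem c.2 ha

variable {B : Subalgebra k A} {f : A} {hf : f ∈ B}

theorem mem_Am {n : ℕ} {a : A} : a ∈ Am B f hf n ↔ f ^ n * a ∈ B := Iff.rfl

theorem Am_of_mem {n : ℕ} {b : A} (hb : b ∈ B) : b ∈ Am B f hf n :=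
  mem_Am.mpr (B.mul_mem (B.pow_mem hf n) hb)

theorem Am_mono {n m : ℕ} (h : n ≤ m) {a : A} (ha : a ∈ Am B f hf n) : a ∈ Am B f hf m := by
  obtain ⟨j, rfl⟩ := Nat.exists_eq_add_of_le h
  rw [mem_Am, pow_add, mul_comm (f ^ n), mul_assoc]
  exact B.mul_mem (B.pow_mem hf j) ha

theorem Am_smul {n : ℕ} {b a : A} (hb : b ∈ B) (ha : a ∈ Am B f hf n) : b * a ∈ Am B f hf n := by
  have := (Am B f hf n).smul_mem ⟨b, hb⟩ ha
  rwa [Subalgebra.smul_def, smul_eq_mul] at this

theorem Am_pow_mul {n j : ℕ} {a : A} (ha : a ∈ Am B f hf (n + j)) : f ^ j * a ∈ Am B f hf n := by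
  rw [mem_Am, ← mul_assoc, ← pow_add]
  exact ha

theorem Am_of_pow_mul {n j : ℕ} {a : A} (ha : f ^ j * a ∈ Am B f hf n) :
    a ∈ Am B f hf (n + j) := by
  rw [mem_Am, pow_add, mul_assoc]
  exact ha

theorem approx (hf : f ∈ B) (h2 : ∀ a : A, ∃ b ∈ B, ∃ c, a = b + f * c) (j : ℕ) (a : A) :
    ∃ b ∈ B, ∃ c, a = b + f ^ j * c := by
  induction j with
  | zero => exact ⟨0, B.zero_mem, a, by rw [pow_zero, one_mul, zero_add]⟩
  | succ j ih =>
    obtain ⟨b, hb, c, rfl⟩ := ih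
    obtain ⟨b', hb', c', rfl⟩ := h2 c
    refine ⟨b + f ^ j * b', B.add_mem hb (B.mul_mem (B.pow_mem hf j) hb'), c', ?_⟩
    rw [pow_succ]; ring

/-- `A_n = B + f^j A_{n+j}`. -/
theorem split (h2 : ∀ a : A, ∃ b ∈ B, ∃ c, a = b + f * c) (n j : ℕ) {a : A}
    (ha : a ∈ Am B f hf n) : ∃ b ∈ B, ∃ c ∈ Am B f hf (n + j), a = b + f ^ j * c := by
  obtain ⟨b, hb, c, rfl⟩ := approx hf h2 j a
  refine ⟨b, hb, c, ?_, rfl⟩
  apply Am_of_pow_mul
  have h4 := (Am B f hf n).sub_mem ha (Am_of_mem hb)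
  rwa [add_sub_cancel_left] at h4

/-- The set `B + f^j A_n A_n`. -/
def DD (B : Subalgebra k A) (f : A) (hf : f ∈ B) (j n : ℕ) : Submodule B A :=
  (1 : Submodule B A) ⊔ Submodule.span B {z | ∃ u ∈ Am B f hf n, ∃ v ∈ Am B f hf n, z = f ^ j * (u * v)}

theorem DD_of_mem {j n : ℕ} {b : A} (hb : b ∈ B) : b ∈ DD B f hf j n := by
  refine Submodule.mem_sup_left ?_
  rw [Submodule.mem_one]
  exact ⟨⟨b, hb⟩, rfl⟩

theorem mem_DD_prod {j n : ℕ} {u v : A} (hu : u ∈ Am B f hf n) (hv : v ∈ Am B f hf n) :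
    f ^ j * (u * v) ∈ DD B f hf j n :=
  Submodule.mem_sup_right (Submodule.subset_span ⟨u, hu, v, hv, rfl⟩)

theorem exists_rho (m : ℕ) : ∃ ρ : A →ₗ[k] A, ∀ u ∈ Am B f hf m, ρ u = u := by
  let S : Submodule k A := (Am B f hf m).restrictScalars k
  obtain ⟨g, hg⟩ := LinearMap.exists_leftInverse_of_injective S.subtype
    (LinearMap.ker_eq_bot.mpr S.subtype_injective)
  refine ⟨S.subtype ∘ₗ g, fun u hu => ?_⟩
  have h := congrArg (fun φ => φ (⟨u, hu⟩ : S)) hg
  exact congrArg Subtype.val h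

theorem exists_sigma (hf : f ∈ B) (h2 : ∀ a : A, ∃ b ∈ B, ∃ c, a = b + f * c) (m : ℕ) :
    ∃ σ : A →ₗ[k] A, ∀ v, σ v ∈ B ∧ ∃ c, v - σ v = f ^ m * c := by
  let I : Submodule k A := (Ideal.span {f ^ m} : Ideal A).restrictScalars k
  let φ : Subalgebra.toSubmodule B →ₗ[k] A ⧸ I := I.mkQ ∘ₗ (Subalgebra.toSubmodule B).subtype
  have hφ : LinearMap.range φ = ⊤ := by
    rw [LinearMap.range_eq_top]
    intro x
    obtain ⟨v, rfl⟩ := Submodule.mkQ_surjective I x
    obtain ⟨b, hb, c, hv⟩ := approx hf h2 m v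
    refine ⟨⟨b, hb⟩, ?_⟩
    rw [LinearMap.comp_apply]
    change Submodule.Quotient.mk b = Submodule.Quotient.mk v
    rw [Submodule.Quotient.eq]
    have h5 : b - v = f ^ m * (-c) := by rw [hv]; ring
    rw [h5]
    exact Ideal.mul_mem_right _ _ (Ideal.subset_span rfl)
  obtain ⟨s, hs⟩ := LinearMap.exists_rightInverse_of_surjective φ hφ
  refine ⟨(Subalgebra.toSubmodule B).subtype ∘ₗ s ∘ₗ I.mkQ, fun v => ⟨(s (I.mkQ v)).2, ?_⟩⟩
  have h4 : φ (s (I.mkQ v)) = I.mkQ v := congrArg (fun g => g (I.mkQ v)) hs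
  have h5 : (Submodule.Quotient.mk v : A ⧸ I) = Submodule.Quotient.mk ((s (I.mkQ v) : A)) := h4.symm
  rw [Submodule.Quotient.eq] at h5
  obtain ⟨c, hc⟩ := Ideal.mem_span_singleton'.mp h5
  exact ⟨c, by rw [mul_comm, hc]; rfl⟩

/-- Consequence of the epimorphism property. -/
theorem mem_DD_of_tensor (hf : f ∈ B) (h1 : ∀ a : A, ∃ n, f ^ n * a ∈ B)
    (h2 : ∀ a : A, ∃ b ∈ B, ∃ c, a = b + f * c)
    (h3 : ∀ a : A, a ⊗ₜ[k] (1 : A) - (1 : A) ⊗ₜ[k] a ∈
      Ideal.span {z : A ⊗[k] A | ∃ b ∈ B, z = b ⊗ₜ[k] (1 : A) - (1 : A) ⊗ₜ[k] b}) (a : A) :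
    ∃ m₀, ∀ m, m₀ ≤ m → a ∈ DD B f hf m m := by
  classical
  choose ρ hρ using fun m => exists_rho (B := B) (f := f) (hf := hf) m
  choose σ hσ using fun m => exists_sigma hf h2 m
  -- the bilinear map
  let β : ∀ m : ℕ, A ⊗[k] A →ₗ[k] A ⧸ (DD B f hf m m).restrictScalars k := fun m =>
    ((DD B f hf m m).restrictScalars k).mkQ ∘ₗ
      TensorProduct.lift ((LinearMap.mul k A).compl₁₂ (ρ m) (σ m))
  have hβ : ∀ m u v, β m (u ⊗ₜ[k] v) =
      ((DD B f hf m m).restrictScalars k).mkQ (ρ m u * σ m v) := fun m u v => rfl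
  have hmk : ∀ m x, ((DD B f hf m m).restrictScalars k).mkQ x = 0 ↔ x ∈ DD B f hf m m := by
    intro m x
    rw [Submodule.mkQ_apply, Submodule.Quotient.mk_eq_zero, Submodule.restrictScalars_mem]
  have hprod : ∀ m (u x c : A), u ∈ Am B f hf m → x ∈ B → x = f ^ m * c →
      u * x ∈ DD B f hf m m := by
    intro m u x c hu hx hxc
    have hc : c ∈ Am B f hf m := by rw [mem_Am, ← hxc]; exact hx
    have : u * x = f ^ m * (u * c) := by rw [hxc]; ring
    rw [this]
    exact mem_DD_prod hu hc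
  -- vanishing on the ideal, for large `m`
  have hvan : ∀ w ∈ Ideal.span {z : A ⊗[k] A | ∃ b ∈ B, z = b ⊗ₜ[k] (1 : A) - (1 : A) ⊗ₜ[k] b},
      ∃ m₀, ∀ m, m₀ ≤ m → β m w = 0 := by
    intro w hw
    induction hw using Submodule.closure_induction with
    | zero => exact ⟨0, fun m _ => map_zero _⟩
    | add x y _ _ hx hy =>
      obtain ⟨m₁, h₁⟩ := hx
      obtain ⟨m₂, h₂⟩ := hy
      refine ⟨max m₁ m₂, fun m hm => ?_⟩
      rw [map_add, h₁ m ((le_max_left _ _).trans hm), h₂ m ((le_max_right _ _).trans hm), add_zero]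
    | smul_mem t z hz =>
      obtain ⟨b, hb, rfl⟩ := hz
      induction t using TensorProduct.induction_on with
      | zero => exact ⟨0, fun m _ => by rw [zero_smul, map_zero]⟩
      | add x y hx hy =>
        obtain ⟨m₁, h₁⟩ := hx
        obtain ⟨m₂, h₂⟩ := hy
        refine ⟨max m₁ m₂, fun m hm => ?_⟩
        rw [add_smul, map_add, h₁ m ((le_max_left _ _).trans hm),
          h₂ m ((le_max_right _ _).trans hm), add_zero]
      | tmul u v =>
        obtain ⟨m₀, hm₀⟩ := h1 u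
        refine ⟨m₀, fun m hm => ?_⟩
        have hu : u ∈ Am B f hf m := Am_mono hm hm₀
        rw [smul_eq_mul, mul_sub, Algebra.TensorProduct.tmul_mul_tmul,
          Algebra.TensorProduct.tmul_mul_tmul, mul_one, mul_one, map_sub, hβ, hβ, ← map_sub, hmk,
          mul_comm u b, hρ m _ (Am_smul hb hu), hρ m u hu]
        obtain ⟨c₁, hc₁⟩ := (hσ m v).2
        obtain ⟨c₂, hc₂⟩ := (hσ m (v * b)).2
        have h5 : b * u * σ m v - u * σ m (v * b) = u * (b * σ m v - σ m (v * b)) := by ring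
        rw [h5]
        refine hprod m u _ (c₂ - b * c₁) hu
          (B.sub_mem (B.mul_mem hb (hσ m v).1) (hσ m (v * b)).1) ?_
        linear_combination hc₂ - b * hc₁
  obtain ⟨m₁, h₁⟩ := hvan _ (h3 a)
  obtain ⟨m₂, h₂⟩ := h1 a
  refine ⟨max m₁ m₂, fun m hm => ?_⟩
  have h6 := h₁ m ((le_max_left _ _).trans hm)
  have ha : a ∈ Am B f hf m := Am_mono ((le_max_right _ _).trans hm) h₂
  rw [map_sub, hβ, hβ, ← map_sub, hmk, hρ m a ha, hρ m 1 (Am_of_mem B.one_mem), one_mul] at h6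
  obtain ⟨c, hc⟩ := (hσ m 1).2
  have h7 : a * (1 - σ m 1) ∈ DD B f hf m m :=
    hprod m a _ c ha (B.sub_mem B.one_mem (hσ m 1).1) hc
  have h8 : a = (a * σ m 1 - σ m a) + a * (1 - σ m 1) + σ m a := by ring
  rw [h8]
  exact (DD B f hf m m).add_mem ((DD B f hf m m).add_mem h6 h7) (DD_of_mem (hσ m a).1)

theorem span_DD {j n : ℕ} {Z : A} (hZ : Z ∈ Submodule.span B {z | ∃ u ∈ Am B f hf n,
    ∃ v ∈ Am B f hf n, z = u * v}) : f ^ j * Z ∈ DD B f hf j n := by
  induction hZ using Submodule.span_induction with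
  | mem z hz =>
    obtain ⟨u, hu, v, hv, rfl⟩ := hz
    exact mem_DD_prod hu hv
  | zero => rw [mul_zero]; exact Submodule.zero_mem _
  | add x y _ _ hx hy => rw [mul_add]; exact Submodule.add_mem _ hx hy
  | smul t x _ hx =>
    rw [Subalgebra.smul_def, smul_eq_mul, mul_left_comm]
    exact (DD B f hf j n).smul_mem t hx

/-- Improvement: `A_N ⊆ B + f A_N + f^(N-m+1) A_N A_N`. -/
theorem improve (h2 : ∀ a : A, ∃ b ∈ B, ∃ c, a = b + f * c)
    {m N : ℕ} (hm : 1 ≤ m) (hN : m ≤ N)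
    (hE : ∀ a ∈ Am B f hf 1, a ∈ DD B f hf m m) {a : A} (ha : a ∈ Am B f hf N) :
    ∃ w ∈ Am B f hf N, a - f * w ∈ DD B f hf (N - m + 1) N := by
  obtain ⟨d, rfl⟩ := Nat.exists_eq_add_of_le hN
  obtain ⟨m, rfl⟩ := Nat.exists_eq_add_of_le' hm
  -- elements of `DD m m` in terms of `A_N`
  have key : ∀ z ∈ DD B f hf (m + 1) (m + 1), ∃ c ∈ B, ∃ W ∈ Am B f hf (m + 1 + d),
      ∃ Z ∈ Submodule.span B {z | ∃ u ∈ Am B f hf (m + 1 + d), ∃ v ∈ Am B f hf (m + 1 + d),
        z = u * v}, z = c + f ^ (m + 1 + d) * W + f ^ (m + 1 + 2 * d) * Z := by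
    intro z hz
    obtain ⟨x, hx, y, hy, rfl⟩ := Submodule.mem_sup.mp hz
    obtain ⟨b, rfl⟩ := Submodule.mem_one.mp hx
    clear hz hx
    suffices h : ∃ c ∈ B, ∃ W ∈ Am B f hf (m + 1 + d),
      ∃ Z ∈ Submodule.span B {z | ∃ u ∈ Am B f hf (m + 1 + d), ∃ v ∈ Am B f hf (m + 1 + d),
        z = u * v}, y = c + f ^ (m + 1 + d) * W + f ^ (m + 1 + 2 * d) * Z by
      obtain ⟨c, hc, W, hW, Z, hZ, rfl⟩ := h
      exact ⟨b + c, B.add_mem b.2 hc, W, hW, Z, hZ, by
        change (b : A) + _ = _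
        ring⟩
    induction hy using Submodule.span_induction with
    | zero => exact ⟨0, B.zero_mem, 0, Submodule.zero_mem _, 0, Submodule.zero_mem _, by ring⟩
    | add x y _ _ hx hy =>
      obtain ⟨c, hc, W, hW, Z, hZ, rfl⟩ := hx
      obtain ⟨c', hc', W', hW', Z', hZ', rfl⟩ := hy
      exact ⟨c + c', B.add_mem hc hc', W + W', Submodule.add_mem _ hW hW', Z + Z',
        Submodule.add_mem _ hZ hZ', by ring⟩
    | smul t x _ hx =>
      obtain ⟨c, hc, W, hW, Z, hZ, rfl⟩ := hx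
      refine ⟨t * c, B.mul_mem t.2 hc, t • W, Submodule.smul_mem _ _ hW, t • Z,
        Submodule.smul_mem _ _ hZ, ?_⟩
      rw [Subalgebra.smul_def, Subalgebra.smul_def, Subalgebra.smul_def, smul_eq_mul, smul_eq_mul,
        smul_eq_mul]
      ring
    | mem z hz =>
      obtain ⟨u, hu, v, hv, rfl⟩ := hz
      obtain ⟨u', hu', U, hU, rfl⟩ := split h2 (m + 1) d hu
      obtain ⟨v', hv', V, hV, rfl⟩ := split h2 (m + 1) d hv
      refine ⟨f ^ (m + 1) * (u' * v'), B.mul_mem (B.pow_mem hf _) (B.mul_mem hu' hv'),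
        u' * V + v' * U, Submodule.add_mem _ (Am_smul hu' hV) (Am_smul hv' hU), U * V,
        Submodule.subset_span ⟨U, hU, V, hV, rfl⟩, ?_⟩
      ring
  have h4 : f ^ (m + d) * a ∈ Am B f hf 1 := by
    apply Am_pow_mul
    have : 1 + (m + d) = m + 1 + d := by ring
    rw [this]; exact ha
  obtain ⟨c, hc, W, hW, Z, hZ, hz⟩ := key _ (hE _ h4)
  -- remainder
  set b := a - f * W - f ^ (d + 1) * Z with hb
  have hbmem : b ∈ Am B f hf (m + d) := by
    rw [mem_Am]
    have : f ^ (m + d) * b = c := by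
      rw [hb, mul_sub, mul_sub, hz]; ring
    rw [this]; exact hc
  obtain ⟨b', hb', e, he, hbe⟩ := split h2 (m + d) 1 hbmem
  have he' : e ∈ Am B f hf (m + 1 + d) := by
    have : m + d + 1 = m + 1 + d := by ring
    rwa [this] at he
  refine ⟨W + e, Submodule.add_mem _ hW he', ?_⟩
  have h5 : a - f * (W + e) = b' + f ^ (d + 1) * Z := by
    rw [pow_one] at hbe
    linear_combination hb.symm.trans hbe
  rw [h5]
  have h6 : m + 1 + d - (m + 1) + 1 = d + 1 := by omega
  rw [h6]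
  exact Submodule.add_mem _ (DD_of_mem hb') (span_DD hZ)

/-- Generators of `A_N` for all `N` from generators of `A_1`. -/
theorem gens (h2 : ∀ a : A, ∃ b ∈ B, ∃ c, a = b + f * c) {ι : Type*} [Fintype ι] (a : ι → A)
    (ha : ∀ i, a i ∈ Am B f hf 1)
    (hgen : ∀ x ∈ Am B f hf 1, ∃ c₀ ∈ B, ∃ c : ι → B, x = c₀ + ∑ i, (c i : A) * a i) (N : ℕ) :
    ∃ y : ι → A, (∀ i, y i ∈ Am B f hf (N + 1)) ∧
      ∀ x ∈ Am B f hf (N + 1), ∃ c₀ ∈ B, ∃ c : ι → B, x = c₀ + ∑ i, (c i : A) * y i := by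
  have h1 : ∀ i, ∃ b ∈ B, ∃ c ∈ Am B f hf (1 + N), a i = b + f ^ N * c :=
    fun i => split h2 1 N (ha i)
  choose b hb y hy hay using h1
  have key : ∀ j, j ≤ N → ∀ x ∈ Am B f hf (j + 1), ∃ c₀ ∈ B, ∃ c : ι → B,
      x = c₀ + ∑ i, (c i : A) * (f ^ (N - j) * y i) := by
    intro j
    induction j with
    | zero =>
      intro _ x hx
      rw [zero_add] at hx
      obtain ⟨c₀, hc₀, c, rfl⟩ := hgen x hx
      refine ⟨c₀ + ∑ i, (c i : A) * b i, B.add_mem hc₀ (B.sum_mem fun i _ =>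
        B.mul_mem (c i).2 (hb i)), c, ?_⟩
      rw [add_assoc, ← Finset.sum_add_distrib, Nat.sub_zero]
      congr 1
      refine Finset.sum_congr rfl fun i _ => ?_
      rw [hay i, mul_add]
    | succ j ih =>
      intro hj x hx
      have h3 : f ^ (j + 1) * x ∈ Am B f hf 1 := by
        apply Am_pow_mul
        have : 1 + (j + 1) = j + 1 + 1 := by ring
        rwa [this]
      obtain ⟨c₀, hc₀, c, hc⟩ := hgen _ h3
      have h4 : x - ∑ i, (c i : A) * (f ^ (N - (j + 1)) * y i) ∈ Am B f hf (j + 1) := by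
        rw [mem_Am, mul_sub, hc, Finset.mul_sum]
        have h5 : ∀ i, f ^ (j + 1) * ((c i : A) * (f ^ (N - (j + 1)) * y i)) =
            (c i : A) * a i - (c i : A) * b i := by
          intro i
          have h6 : f ^ N = f ^ (j + 1) * f ^ (N - (j + 1)) := by
            rw [← pow_add]; congr 1; omega
          rw [hay i, h6]; ring
        simp only [h5]
        rw [Finset.sum_sub_distrib]
        have h7 : c₀ + ∑ i, (c i : A) * a i - (∑ i, (c i : A) * a i - ∑ i, (c i : A) * b i) =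
            c₀ + ∑ i, (c i : A) * b i := by ring
        rw [h7]
        exact B.add_mem hc₀ (B.sum_mem fun i _ => B.mul_mem (c i).2 (hb i))
      obtain ⟨c₁, hc₁, c', hc'⟩ := ih (by omega) _ h4
      refine ⟨c₁, hc₁, fun i => c i + ⟨f, hf⟩ * c' i, ?_⟩
      rw [sub_eq_iff_eq_add] at hc'
      rw [hc', add_assoc, ← Finset.sum_add_distrib]
      congr 1
      refine Finset.sum_congr rfl fun i _ => ?_
      have h6 : f ^ (N - j) = f * f ^ (N - (j + 1)) := by
        rw [← pow_succ']; congr 1; omega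
      change _ = ((c i : A) + f * (c' i : A)) * _
      rw [h6]; ring
  refine ⟨y, fun i => ?_, fun x hx => ?_⟩
  · have : N + 1 = 1 + N := by ring
    rw [this]; exact hy i
  · obtain ⟨c₀, hc₀, c, hc⟩ := key N le_rfl x hx
    refine ⟨c₀, hc₀, c, ?_⟩
    rw [hc]
    simp

/-- The determinant step. -/
theorem det_step {ι : Type*} [Fintype ι] [DecidableEq ι] (y c : ι → A) (e : ι → ι → A)
    (hc : ∀ i, c i ∈ B) (he1 : ∀ i j, ∃ h, e i j = f * h) (q : ℕ) (he2 : ∀ i j, f ^ q * e i j ∈ B)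
    (hf : f ∈ B)
    (hy : ∀ i, y i = c i + ∑ j, e i j * y j) :
    ∃ g h : A, g = 1 - f * h ∧ f ^ (q * Fintype.card ι) * g ∈ B ∧
      ∀ i, f ^ (q * Fintype.card ι) * (g * y i) ∈ B := by
  classical
  set M : Matrix ι ι A := 1 - Matrix.of e with hM
  have hE : ∀ i j, (f ^ q • M) i j ∈ B := by
    intro i j
    rw [Matrix.smul_apply, hM, Matrix.sub_apply, Matrix.of_apply, smul_sub, smul_eq_mul,
      smul_eq_mul]
    refine B.sub_mem (B.mul_mem (B.pow_mem hf q) ?_) (he2 i j)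
    rw [Matrix.one_apply]
    split_ifs
    · exact B.one_mem
    · exact B.zero_mem
  set E₀ : Matrix ι ι B := Matrix.of fun i j => ⟨(f ^ q • M) i j, hE i j⟩ with hE₀
  have hEE : E₀.map B.val = f ^ q • M := by ext i j; rfl
  have hdet : f ^ (q * Fintype.card ι) * M.det = B.val E₀.det := by
    have h1 : B.val E₀.det = (E₀.map B.val).det := AlgHom.map_det B.val E₀
    rw [h1, hEE, Matrix.det_smul, ← pow_mul]
  -- the linear system
  have hsys : M.mulVec y = c := by
    funext i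
    rw [hM, Matrix.sub_mulVec, Matrix.one_mulVec, Pi.sub_apply]
    have h2 : (Matrix.of e).mulVec y i = ∑ j, e i j * y j := rfl
    rw [h2]
    conv_lhs => rw [hy i]
    ring
  have hadj : ∀ i, B.val E₀.det * y i = f ^ q * ∑ j, (E₀.map B.val).adjugate i j * c j := by
    intro i
    have h3 : (E₀.map B.val).adjugate.mulVec ((E₀.map B.val).mulVec y) =
        (E₀.map B.val).det • y := by
      rw [Matrix.mulVec_mulVec, Matrix.adjugate_mul, Matrix.smul_mulVec, Matrix.one_mulVec]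
    have h1 : B.val E₀.det = (E₀.map B.val).det := AlgHom.map_det B.val E₀
    have h4 : (E₀.map B.val).mulVec y = f ^ q • c := by
      rw [hEE, Matrix.smul_mulVec, hsys]
    rw [h4, Matrix.mulVec_smul, ← h1] at h3
    have h5 := congrFun h3 i
    rw [Pi.smul_apply, Pi.smul_apply, smul_eq_mul, smul_eq_mul] at h5
    exact h5.symm
  have hadjB : ∀ i j, (E₀.map B.val).adjugate i j ∈ B := by
    intro i j
    have h6 : (E₀.map B.val).adjugate = E₀.adjugate.map B.val :=
      (AlgHom.map_adjugate B.val E₀).symm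
    rw [h6]
    exact (E₀.adjugate i j).2
  -- `det ≡ 1`
  have hone : ∃ h, M.det = 1 - f * h := by
    have h7 : (Ideal.Quotient.mk (Ideal.span {f})) M.det = 1 := by
      rw [RingHom.map_det]
      have h8 : (Ideal.Quotient.mk (Ideal.span {f})).mapMatrix M = 1 := by
        ext i j
        rw [RingHom.mapMatrix_apply, Matrix.map_apply, hM, Matrix.sub_apply, Matrix.of_apply,
          map_sub]
        obtain ⟨h, hh⟩ := he1 i j
        have h9 : (Ideal.Quotient.mk (Ideal.span {f})) (e i j) = 0 := by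
          rw [hh, Ideal.Quotient.eq_zero_iff_mem]
          exact Ideal.mul_mem_right _ _ (Ideal.subset_span rfl)
        rw [h9, sub_zero, Matrix.one_apply, Matrix.one_apply]
        split_ifs
        · exact map_one _
        · exact map_zero _
      rw [h8, Matrix.det_one]
    have h10 : (Ideal.Quotient.mk (Ideal.span {f})) (1 - M.det) = 0 := by
      rw [map_sub, h7, map_one, sub_self]
    rw [Ideal.Quotient.eq_zero_iff_mem, Ideal.mem_span_singleton'] at h10
    obtain ⟨h, hh⟩ := h10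
    exact ⟨h, by linear_combination hh⟩
  obtain ⟨h, hh⟩ := hone
  refine ⟨M.det, h, hh, ?_, fun i => ?_⟩
  · rw [hdet]; exact E₀.det.2
  · rw [← mul_assoc, hdet, hadj i]
    exact B.mul_mem (B.pow_mem hf q) (B.sum_mem fun j _ => B.mul_mem (hadjB i j) (hc j))

/-- **Core theorem**. -/
theorem core (hB : B.FG) (hf : f ∈ B) (hfr : ∀ a : A, f * a = 0 → a = 0)
    (h1 : ∀ a : A, ∃ n, f ^ n * a ∈ B)
    (h2 : ∀ a : A, ∃ b ∈ B, ∃ c, a = b + f * c)
    (h3 : ∀ a : A, a ⊗ₜ[k] (1 : A) - (1 : A) ⊗ₜ[k] a ∈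
      Ideal.span {z : A ⊗[k] A | ∃ b ∈ B, z = b ⊗ₜ[k] (1 : A) - (1 : A) ⊗ₜ[k] b}) :
    Algebra.FiniteType k A := by
  classical
  have hBft : Algebra.FiniteType k B := B.fg_iff_finiteType.mp hB
  have hBN : IsNoetherianRing B := Algebra.FiniteType.isNoetherianRing k B
  -- `A_1` is finitely generated over `B`
  let φ : Am B f hf 1 →ₗ[B] B :=
    { toFun := fun u => ⟨f * u.1, by have := u.2; rw [mem_Am, pow_one] at this; exact this⟩
      map_add' := fun u v => Subtype.ext (mul_add _ _ _)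
      map_smul' := fun b u => Subtype.ext (by
        change f * ((b : A) * u.1) = b * (f * u.1)
        ring) }
  have hφ : Function.Injective φ := by
    rw [injective_iff_map_eq_zero]
    intro u hu
    exact Subtype.ext (hfr _ (congrArg Subtype.val hu))
  have hN1 : IsNoetherian B (Am B f hf 1) := isNoetherian_of_injective φ hφ
  have hfin : Module.Finite B (Am B f hf 1) := inferInstance
  obtain ⟨S, hS⟩ := Module.Finite.iff_fg.mp hfin
  have haS : ∀ i : S, (i : A) ∈ Am B f hf 1 := fun i => hS ▸ Submodule.subset_span i.2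
  have hgen : ∀ x ∈ Am B f hf 1, ∃ c₀ ∈ B, ∃ c : S → B, x = c₀ + ∑ i, (c i : A) * (i : A) := by
    intro x hx
    rw [← hS] at hx
    obtain ⟨c, hc⟩ := Submodule.mem_span_finset'.mp hx
    refine ⟨0, B.zero_mem, c, ?_⟩
    rw [zero_add, ← hc]
    exact Finset.sum_congr rfl fun i _ => by rw [Subalgebra.smul_def, smul_eq_mul]
  -- a common `m`
  choose M hM using fun i : S => mem_DD_of_tensor hf h1 h2 h3 (i : A)
  set m := (Finset.univ.sup M) + 1 with hm
  have hE : ∀ a ∈ Am B f hf 1, a ∈ DD B f hf m m := by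
    intro a ha
    obtain ⟨c₀, hc₀, c, rfl⟩ := hgen a ha
    refine Submodule.add_mem _ (DD_of_mem hc₀) (Submodule.sum_mem _ fun i _ => ?_)
    have h4 : (i : A) ∈ DD B f hf m m := hM i m
      ((Finset.le_sup (Finset.mem_univ i)).trans (Nat.le_succ _))
    have h5 := (DD B f hf m m).smul_mem (c i) h4
    rwa [Subalgebra.smul_def, smul_eq_mul] at h5
  set r := Fintype.card S with hr
  set q := Finset.univ.sup M with hq
  set N := q * r + m with hN
  have hN' : N = (q * r + q) + 1 := by rw [hN, hm]; ring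
  obtain ⟨y, hyN, hyg⟩ := gens (hf := hf) h2 (fun i : S => (i : A)) haS hgen (q * r + q)
  rw [← hN'] at hyN hyg
  have hmN : m ≤ N := by rw [hN]; omega
  -- the relations
  have hgood : ∀ z ∈ DD B f hf (N - m + 1) N, ∃ c₀ ∈ B, ∃ e : S → A,
      (∀ j, ∃ h, e j = f * h) ∧ (∀ j, f ^ q * e j ∈ B) ∧ z = c₀ + ∑ j, e j * y j := by
    intro z hz
    obtain ⟨x, hx, w, hw, rfl⟩ := Submodule.mem_sup.mp hz
    obtain ⟨b, rfl⟩ := Submodule.mem_one.mp hx
    clear hz hx
    suffices h : ∃ c₀ ∈ B, ∃ e : S → A,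
        (∀ j, ∃ h, e j = f * h) ∧ (∀ j, f ^ q * e j ∈ B) ∧ w = c₀ + ∑ j, e j * y j by
      obtain ⟨c₀, hc₀, e, he1, he2, rfl⟩ := h
      exact ⟨b + c₀, B.add_mem b.2 hc₀, e, he1, he2, by
        change (b : A) + _ = _
        ring⟩
    induction hw using Submodule.span_induction with
    | zero =>
      exact ⟨0, B.zero_mem, 0, fun j => ⟨0, by simp⟩, fun j => by
        rw [Pi.zero_apply, mul_zero]; exact B.zero_mem, by simp⟩
    | add x y' _ _ hx hy' =>
      obtain ⟨c, hc, e, he1, he2, rfl⟩ := hx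
      obtain ⟨c', hc', e', he1', he2', rfl⟩ := hy'
      refine ⟨c + c', B.add_mem hc hc', e + e', fun j => ?_, fun j => ?_, ?_⟩
      · obtain ⟨h, hh⟩ := he1 j
        obtain ⟨h', hh'⟩ := he1' j
        exact ⟨h + h', by rw [Pi.add_apply, hh, hh']; ring⟩
      · rw [Pi.add_apply, mul_add]
        exact B.add_mem (he2 j) (he2' j)
      · simp only [Pi.add_apply, add_mul, Finset.sum_add_distrib]
        ring
    | smul t x _ hx =>
      obtain ⟨c, hc, e, he1, he2, rfl⟩ := hx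
      refine ⟨t * c, B.mul_mem t.2 hc, fun j => t * e j, fun j => ?_, fun j => ?_, ?_⟩
      · obtain ⟨h, hh⟩ := he1 j
        refine ⟨t * h, ?_⟩
        change (t : A) * e j = _
        rw [hh]; ring
      · change f ^ q * ((t : A) * e j) ∈ B
        rw [mul_left_comm]
        exact B.mul_mem t.2 (he2 j)
      · rw [Subalgebra.smul_def, smul_eq_mul, mul_add, Finset.mul_sum]
        congr 1
        exact Finset.sum_congr rfl fun j _ => by ring
    | mem z hz =>
      obtain ⟨u, hu, v, hv, rfl⟩ := hz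
      obtain ⟨cu, hcu, du, hdu⟩ := hyg u hu
      obtain ⟨cv, hcv, dv, hdv⟩ := hyg v hv
      refine ⟨f ^ (N - m + 1) * (cv * cu), B.mul_mem (B.pow_mem hf _) (B.mul_mem hcv hcu),
        fun j => f ^ (N - m + 1) * (cv * du j) + f ^ (N - m + 1) * (u * dv j), fun j => ?_,
        fun j => ?_, ?_⟩
      · refine ⟨f ^ (N - m) * (cv * du j) + f ^ (N - m) * (u * dv j), ?_⟩
        change f ^ (N - m + 1) * (cv * du j) + f ^ (N - m + 1) * (u * dv j) = _
        rw [pow_succ]; ring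
      · change f ^ q * (f ^ (N - m + 1) * (cv * du j) + f ^ (N - m + 1) * (u * dv j)) ∈ B
        rw [mul_add]
        refine B.add_mem (B.mul_mem (B.pow_mem hf _) (B.mul_mem (B.pow_mem hf _)
          (B.mul_mem hcv (du j).2))) ?_
        have h6 : f ^ q * (f ^ (N - m + 1) * (u * dv j)) = (f ^ N * u) * dv j := by
          have h7 : f ^ N = f ^ q * f ^ (N - m + 1) := by
            rw [← pow_add]; congr 1; omega
          rw [h7]; ring
        rw [h6]
        exact B.mul_mem hu (dv j).2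
      · have h8 : f ^ (N - m + 1) * (u * v) =
            f ^ (N - m + 1) * (cv * u) + f ^ (N - m + 1) * u * ∑ j, (dv j : A) * y j := by
          conv_lhs => rw [hdv]
          ring
        have h9 : f ^ (N - m + 1) * (cv * u) = f ^ (N - m + 1) * (cv * cu) +
            ∑ j, f ^ (N - m + 1) * (cv * du j) * y j := by
          conv_lhs => rw [hdu]
          rw [mul_add, mul_add, Finset.mul_sum, Finset.mul_sum]
          congr 1
          exact Finset.sum_congr rfl fun j _ => by ring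
        rw [h8, h9, Finset.mul_sum, add_assoc, ← Finset.sum_add_distrib]
        congr 1
        refine Finset.sum_congr rfl fun j _ => ?_
        change _ = (f ^ (N - m + 1) * (cv * du j) + f ^ (N - m + 1) * (u * dv j)) * y j
        ring
  have hrel : ∀ i, ∃ c₀ ∈ B, ∃ e : S → A,
      (∀ j, ∃ h, e j = f * h) ∧ (∀ j, f ^ q * e j ∈ B) ∧ y i = c₀ + ∑ j, e j * y j := by
    intro i
    obtain ⟨w, hw, hd⟩ := improve h2 (by omega) hmN hE (hyN i)
    obtain ⟨c, hc, e, he1, he2, he⟩ := hgood _ hd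
    obtain ⟨c', hc', d, hd'⟩ := hyg w hw
    refine ⟨c + f * c', B.add_mem hc (B.mul_mem hf hc'), fun j => e j + f * d j, fun j => ?_,
      fun j => ?_, ?_⟩
    · obtain ⟨h, hh⟩ := he1 j
      refine ⟨h + d j, ?_⟩
      change e j + f * (d j : A) = _
      rw [hh]; ring
    · change f ^ q * (e j + f * (d j : A)) ∈ B
      rw [mul_add]
      exact B.add_mem (he2 j) (B.mul_mem (B.pow_mem hf _) (B.mul_mem hf (d j).2))
    · rw [sub_eq_iff_eq_add] at he
      rw [he]
      conv_lhs => rw [hd']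
      simp only [add_mul, Finset.sum_add_distrib, mul_add, Finset.mul_sum]
      have h9 : ∀ j, f * ((d j : A) * y j) = f * (d j : A) * y j := fun j => by ring
      simp only [h9]
      ring
  choose c hc e he1 he2 he using hrel
  obtain ⟨g, h, hgh, hg1, hg2⟩ := det_step y c e hc he1 q he2 hf he
  rw [← hr] at hg1 hg2
  -- `g A_N ⊆ A_s`
  have hgN : ∀ x ∈ Am B f hf N, g * x ∈ Am B f hf (q * r) := by
    intro x hx
    obtain ⟨c₀, hc₀, d, rfl⟩ := hyg x hx
    rw [mem_Am]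
    have h10 : f ^ (q * r) * (g * (c₀ + ∑ i, (d i : A) * y i)) =
        c₀ * (f ^ (q * r) * g) + ∑ i, (d i : A) * (f ^ (q * r) * (g * y i)) := by
      rw [mul_add, mul_add, Finset.mul_sum, Finset.mul_sum]
      congr 1
      · ring
      · exact Finset.sum_congr rfl fun i _ => by ring
    rw [h10]
    exact B.add_mem (B.mul_mem hc₀ hg1) (B.sum_mem fun i _ => B.mul_mem (d i).2 (hg2 i))
  have hgj : ∀ j, ∀ a ∈ Am B f hf (N + j), g ^ j * a ∈ Am B f hf N := by
    intro j
    induction j with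
    | zero => intro a ha; rwa [pow_zero, one_mul]
    | succ j ih =>
      intro a ha
      have h11 : f ^ (j + 1) * (g * a) ∈ Am B f hf (q * r) := by
        rw [mul_left_comm]
        exact hgN _ (Am_pow_mul ha)
      have h12 : g * a ∈ Am B f hf (N + j) := by
        refine Am_mono ?_ (Am_of_pow_mul h11)
        rw [hN, hm]; omega
      have h13 := ih _ h12
      rwa [← mul_assoc, ← pow_succ] at h13
  -- the finitely generated algebra
  set T : Subalgebra k A := B ⊔ Algebra.adjoin k ((Finset.univ.image y ∪ {g, h} : Finset A) : Set A)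
    with hT
  have hTfg : T.FG := hB.sup (Subalgebra.fg_adjoin_finset _)
  have hBT : B ≤ T := le_sup_left
  have hadj : ∀ x ∈ (Finset.univ.image y ∪ {g, h} : Finset A), x ∈ T := fun x hx =>
    (le_sup_right : _ ≤ T) (Algebra.subset_adjoin (by exact_mod_cast hx))
  have hyT : ∀ i, y i ∈ T := fun i => hadj _ (Finset.mem_union_left _
    (Finset.mem_image_of_mem _ (Finset.mem_univ i)))
  have hgT : g ∈ T := hadj _ (Finset.mem_union_right _ (by simp))
  have hhT : h ∈ T := hadj _ (Finset.mem_union_right _ (by simp))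
  have hTop : ∀ a : A, a ∈ T := by
    intro a
    obtain ⟨n, hn⟩ := h1 a
    have h14 : f ^ n * a ∈ T := hBT hn
    have h15 : g ^ n * a ∈ T := by
      have h16 : a ∈ Am B f hf (N + n) := Am_mono (Nat.le_add_left _ _) hn
      obtain ⟨c₀, hc₀, d, hd⟩ := hyg _ (hgj n a h16)
      rw [hd]
      exact T.add_mem (hBT hc₀) (T.sum_mem fun i _ => T.mul_mem (hBT (d i).2) (hyT i))
    have hcop : IsCoprime (⟨f, hBT hf⟩ : T) ⟨g, hgT⟩ :=
      ⟨⟨h, hhT⟩, 1, Subtype.ext (by
        change h * f + 1 * g = 1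
        rw [hgh]; ring)⟩
    obtain ⟨u, v, huv⟩ := hcop.pow (m := n) (n := n)
    have h17 : (u : A) * f ^ n + v * g ^ n = 1 := congrArg Subtype.val huv
    have h18 : a = u * (f ^ n * a) + v * (g ^ n * a) := by linear_combination (-a) * h17
    rw [h18]
    exact T.add_mem (T.mul_mem u.2 h14) (T.mul_mem v.2 h15)
  have hTT : T = ⊤ := Algebra.eq_top_iff.mpr hTop
  exact ⟨hTT ▸ hTfg⟩

end Pool.Agent.R738.FG
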