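import Mathlib

set_option autoImplicit false
set_option maxHeartbeats 400000

/-! # Generic finite generation -/

namespace Pool.Agent.R738.FG

theorem generic_aux {k A L : Type*} [Field k] [CommRing A] [IsDomain A] [Algebra k A] [Field L]
    [Algebra k L] [Algebra A L] [IsScalarTower k A L] (hinj : Function.Injective (algebraMap A L))
    (G : Finset L) (hG : ∀ x ∈ G, IsAlgebraic A x)
    (hA : ∀ a : A, algebraMap A L a ∈ Algebra.adjoin k (G : Set L)) :
    ∃ f : A, f ≠ 0 ∧ ∃ B : Subalgebra k A, B.FG ∧ f ∈ B ∧ ∀ a, ∃ n, f ^ n * a ∈ B := by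
  classical
  -- denominators
  have h1 : ∀ x : G, ∃ d : A, d ≠ 0 ∧ IsIntegral A (d • (x : L)) := fun x =>
    (hG x x.2).exists_integral_multiple
  choose d hd0 hd using h1
  set f : A := ∏ x, d x with hf
  have hf0 : f ≠ 0 := Finset.prod_ne_zero_iff.mpr fun x _ => hd0 x
  have hfG : ∀ x ∈ G, IsIntegral A (f • x) := by
    intro x hx
    have h2 : f = (∏ y ∈ Finset.univ.erase (⟨x, hx⟩ : G), d y) * d ⟨x, hx⟩ := by
      rw [hf, Finset.prod_erase_mul _ _ (Finset.mem_univ _)]
    rw [h2, mul_smul]
    exact (hd ⟨x, hx⟩).smul _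
  set u : L := algebraMap A L f with hu
  have hu0 : u ≠ 0 := fun h => hf0 (hinj (by rw [map_zero]; exact h))
  -- `A_f` inside `L`
  set Af : Subalgebra A L := Algebra.adjoin A {u⁻¹} with hAf
  have huinv : u⁻¹ ∈ Af := Algebra.subset_adjoin rfl
  have hGint : ∀ x ∈ G, IsIntegral Af x := by
    intro x hx
    have h3 : IsIntegral Af (f • x) := (hfG x hx).tower_top
    have h4 : x = (⟨u⁻¹, huinv⟩ : Af) • (f • x) := by
      rw [Algebra.smul_def f x, Algebra.smul_def]
      change x = u⁻¹ * (u * x)
      rw [← mul_assoc, inv_mul_cancel₀ hu0, one_mul]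
    rw [h4]
    exact h3.smul _
  set Cf : Subalgebra Af L := Algebra.adjoin Af (G : Set L) with hCf
  have hfin : Module.Finite Af Cf :=
    Algebra.finite_adjoin_of_finite_of_isIntegral G.finite_toSet hGint
  -- `C_f` is finitely generated over `k`
  set T : Subalgebra k L := Algebra.adjoin k ((insert u⁻¹ G : Finset L) : Set L) with hT
  have hGT : Algebra.adjoin k (G : Set L) ≤ T := Algebra.adjoin_mono (by
    intro x hx
    exact_mod_cast Finset.mem_insert_of_mem (by exact_mod_cast hx))
  have huT : u⁻¹ ∈ T := Algebra.subset_adjoin (by exact_mod_cast Finset.mem_insert_self _ _)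
  have hAT : ∀ a : A, algebraMap A L a ∈ T := fun a => hGT (hA a)
  have hAfT : ∀ z ∈ Af, z ∈ T := by
    intro z hz
    induction hz using Algebra.adjoin_induction with
    | mem x hx => rw [hx]; exact huT
    | algebraMap r => exact hAT r
    | add x y _ _ hx hy => exact T.add_mem hx hy
    | mul x y _ _ hx hy => exact T.mul_mem hx hy
  have hCfT : ∀ z ∈ Cf, z ∈ T := by
    intro z hz
    induction hz using Algebra.adjoin_induction with
    | mem x hx => exact hGT (Algebra.subset_adjoin hx)
    | algebraMap r => exact hAfT _ r.2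
    | add x y _ _ hx hy => exact T.add_mem hx hy
    | mul x y _ _ hx hy => exact T.mul_mem hx hy
  have hTCf : ∀ z ∈ T, z ∈ Cf := by
    intro z hz
    induction hz using Algebra.adjoin_induction with
    | mem x hx =>
      have hx' : x = u⁻¹ ∨ x ∈ G := by
        rw [Finset.mem_coe, Finset.mem_insert] at hx
        exact hx
      rcases hx' with rfl | hx'
      · exact Cf.algebraMap_mem ⟨u⁻¹, huinv⟩
      · exact Algebra.subset_adjoin hx'
    | algebraMap r =>
      have : algebraMap k L r = algebraMap Af L (algebraMap A Af (algebraMap k A r)) := by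
        rw [IsScalarTower.algebraMap_apply k A L]
        rfl
      rw [this]
      exact Cf.algebraMap_mem _
    | add x y _ _ hx hy => exact Cf.add_mem hx hy
    | mul x y _ _ hx hy => exact Cf.mul_mem hx hy
  have htop : (⊤ : Subalgebra k Cf).FG := by
    refine Subalgebra.fg_of_fg_map _ (Cf.val.restrictScalars k) Subtype.val_injective ?_
    have h5 : (⊤ : Subalgebra k Cf).map (Cf.val.restrictScalars k) = T := by
      ext z
      rw [Subalgebra.mem_map]
      constructor
      · rintro ⟨w, _, rfl⟩
        exact hCfT _ w.2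
      · intro hz
        exact ⟨⟨z, hTCf z hz⟩, Algebra.mem_top, rfl⟩
    rw [h5]
    exact Subalgebra.fg_adjoin_finset _
  have hAffg : (⊤ : Subalgebra k Af).FG :=
    fg_of_fg_of_fg k Af Cf htop hfin.fg_top (fun x y h => by
      have h' : ((algebraMap Af Cf x : Cf) : L) = ((algebraMap Af Cf y : Cf) : L) := by rw [h]
      exact Subtype.ext h')
  obtain ⟨Z, hZ⟩ := hAffg
  -- numerators
  have hnum : ∀ z ∈ Af, ∃ (n : ℕ) (a : A), u ^ n * z = algebraMap A L a := by
    intro z hz
    induction hz using Algebra.adjoin_induction with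
    | mem x hx => exact ⟨1, 1, by rw [hx, pow_one, mul_inv_cancel₀ hu0, map_one]⟩
    | algebraMap r => exact ⟨0, r, by rw [pow_zero, one_mul]⟩
    | add x y _ _ hx hy =>
      obtain ⟨n, a, ha⟩ := hx
      obtain ⟨m, b, hb⟩ := hy
      refine ⟨n + m, f ^ m * a + f ^ n * b, ?_⟩
      rw [map_add, map_mul, map_mul, map_pow, map_pow, ← ha, ← hb, ← hu]
      ring
    | mul x y _ _ hx hy =>
      obtain ⟨n, a, ha⟩ := hx
      obtain ⟨m, b, hb⟩ := hy
      refine ⟨n + m, a * b, ?_⟩
      rw [map_mul, ← ha, ← hb]
      ring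
  choose! n a ha using hnum
  set S : Finset A := insert f (Z.image fun z : Af => a (z : L)) with hS
  refine ⟨f, hf0, Algebra.adjoin k (S : Set A), Subalgebra.fg_adjoin_finset _,
    Algebra.subset_adjoin (by exact_mod_cast Finset.mem_insert_self _ _), fun x => ?_⟩
  set B := Algebra.adjoin k (S : Set A) with hB
  have hfB : f ∈ B := Algebra.subset_adjoin (by exact_mod_cast Finset.mem_insert_self _ _)
  have key : ∀ z : Af, z ∈ Algebra.adjoin k (Z : Set Af) →
      ∃ (n : ℕ), ∃ b ∈ B, u ^ n * (z : L) = algebraMap A L b := by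
    intro z hz
    induction hz using Algebra.adjoin_induction with
    | mem z hz =>
      refine ⟨n z, a z, Algebra.subset_adjoin ?_, ha z z.2⟩
      exact_mod_cast Finset.mem_insert_of_mem (Finset.mem_image_of_mem _ (by exact_mod_cast hz))
    | algebraMap r =>
      refine ⟨0, algebraMap k A r, B.algebraMap_mem r, ?_⟩
      rw [pow_zero, one_mul, ← IsScalarTower.algebraMap_apply k A L]
      rfl
    | add x y _ _ hx hy =>
      obtain ⟨n, a, haB, ha⟩ := hx
      obtain ⟨m, b, hbB, hb⟩ := hy
      refine ⟨n + m, f ^ m * a + f ^ n * b, B.add_mem (B.mul_mem (B.pow_mem hfB m) haB)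
        (B.mul_mem (B.pow_mem hfB n) hbB), ?_⟩
      rw [map_add, map_mul, map_mul, map_pow, map_pow, ← ha, ← hb, ← hu]
      change _ * ((x : L) + (y : L)) = _
      ring
    | mul x y _ _ hx hy =>
      obtain ⟨n, a, haB, ha⟩ := hx
      obtain ⟨m, b, hbB, hb⟩ := hy
      refine ⟨n + m, a * b, B.mul_mem haB hbB, ?_⟩
      rw [map_mul, ← ha, ← hb]
      change _ * ((x : L) * (y : L)) = _
      ring
  obtain ⟨m, b, hbB, hb⟩ := key (algebraMap A Af x) (hZ ▸ Algebra.mem_top)
  refine ⟨m, ?_⟩
  have h6 : f ^ m * x = b := by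
    apply hinj
    rw [map_mul, map_pow, ← hb]
    rfl
  rw [h6]
  exact hbB

theorem generic {k A P : Type*} [Field k] [CommRing A] [IsDomain A] [Algebra k A] [CommRing P]
    [Algebra k P] [Algebra A P] [IsScalarTower k A P] [Algebra.FiniteType k P]
    (hinj : Function.Injective (algebraMap A P)) :
    ∃ f : A, f ≠ 0 ∧ ∃ B : Subalgebra k A, B.FG ∧ f ∈ B ∧ ∀ a, ∃ n, f ^ n * a ∈ B := by
  classical
  let K := FractionRing A
  let R := TensorProduct A K P
  have hAP : Algebra.FiniteType A P := Algebra.FiniteType.of_restrictScalars_finiteType k A P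
  have hKR : Algebra.FiniteType K R := inferInstance
  have hinjR : Function.Injective (algebraMap K R) := by
    have h1 : Function.Injective ((Algebra.linearMap A P).lTensor K) :=
      Module.Flat.lTensor_preserves_injective_linearMap _ hinj
    have h2 : ∀ x : K, algebraMap K R x =
        (Algebra.linearMap A P).lTensor K ((TensorProduct.rid A K).symm x) := by
      intro x
      rw [TensorProduct.rid_symm_apply, LinearMap.lTensor_tmul, Algebra.linearMap_apply, map_one]
      rfl
    intro x y hxy
    rw [h2, h2] at hxy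
    exact (TensorProduct.rid A K).symm.injective (h1 hxy)
  have hnt : Nontrivial R := hinjR.nontrivial
  obtain ⟨m, hm⟩ := Ideal.exists_maximal R
  letI : Field (R ⧸ m) := Ideal.Quotient.field m
  let L := R ⧸ m
  have hfin : Module.Finite K L := finite_of_finite_type_of_isJacobsonRing K L
  have hinjL : Function.Injective (algebraMap A L) := by
    have h3 : Function.Injective (algebraMap K L) := (algebraMap K L).injective
    have h4 : algebraMap A L = (algebraMap K L).comp (algebraMap A K) :=
      IsScalarTower.algebraMap_eq A K L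
    rw [h4]
    exact h3.comp (IsFractionRing.injective A K)
  -- the homomorphism `P → L`
  let φ : P →ₐ[A] L := (Ideal.Quotient.mkₐ A m).comp Algebra.TensorProduct.includeRight
  let ψ : P →ₐ[k] L := φ.restrictScalars k
  obtain ⟨G, hG⟩ := (inferInstance : Algebra.FiniteType k P).out
  refine generic_aux hinjL (G.image ψ) (fun x _ => ?_) (fun a => ?_)
  · have hKL : Algebra.IsAlgebraic K L := Algebra.IsAlgebraic.of_finite K L
    have h5 : IsAlgebraic K x := hKL.isAlgebraic x
    exact (IsFractionRing.isAlgebraic_iff A K L).mpr h5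
  · have h6 : algebraMap A L a = ψ (algebraMap A P a) := (φ.commutes a).symm
    rw [h6, Finset.coe_image, ← AlgHom.map_adjoin, hG]
    exact ⟨_, Algebra.mem_top, rfl⟩

end Pool.Agent.R738.FG
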