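import Pool.Agent.R738.FG.Retract

set_option autoImplicit false
set_option maxHeartbeats 400000

/-! # Direct summands of finitely generated algebras are finitely generated -/

namespace Pool.Agent.R738.FG

theorem noeth_of_retract {A P : Type*} [CommRing A] [CommRing P] [Algebra A P]
    [IsNoetherianRing P] (π : P →ₗ[A] A) (hπ : π 1 = 1) : IsNoetherianRing A := by
  have h1 : ∀ b : A, π (algebraMap A P b) = b := by
    intro b
    rw [Algebra.algebraMap_eq_smul_one, map_smul, hπ, smul_eq_mul, mul_one]
  have h2 : ∀ I : Ideal A, ∀ p ∈ I.map (algebraMap A P), π p ∈ I := by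
    intro I p hp
    induction hp using Submodule.closure_induction with
    | zero => rw [map_zero]; exact I.zero_mem
    | add x y _ _ hx hy => rw [map_add]; exact I.add_mem hx hy
    | smul_mem r x hx =>
      obtain ⟨a, ha, rfl⟩ := hx
      rw [smul_eq_mul, mul_comm, ← Algebra.smul_def, map_smul, smul_eq_mul]
      exact I.mul_mem_right _ ha
  have h3 : ∀ I : Ideal A, ∀ a, algebraMap A P a ∈ I.map (algebraMap A P) ↔ a ∈ I := by
    intro I a
    refine ⟨fun h => ?_, fun h => Ideal.mem_map_of_mem _ h⟩
    have := h2 I _ h
    rwa [h1] at this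
  have hmono : StrictMono (fun I : Ideal A => I.map (algebraMap A P)) := by
    intro I J hIJ
    refine lt_of_le_of_ne (Ideal.map_mono hIJ.le) fun h => hIJ.ne ?_
    ext a
    rw [← h3 I, ← h3 J]
    have h' : I.map (algebraMap A P) = J.map (algebraMap A P) := h
    rw [h']
  have : WellFoundedGT (Ideal P) := inferInstance
  have h4 : WellFoundedGT (Ideal A) := hmono.wellFoundedGT
  exact isNoetherianRing_iff.mpr (isNoetherian_iff'.mpr h4)

section Quot

variable {k A P : Type*} [Field k] [CommRing A] [Algebra k A] [CommRing P]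
    [Algebra k P] [Algebra A P] [IsScalarTower k A P]

theorem quot_aux [Algebra.FiniteType k P] (π : P →ₗ[A] A) (hπ : π 1 = 1) (J : Ideal A)
    [J.IsPrime]
    (hq : ∀ I : Ideal (A ⧸ J), I ≠ ⊥ → Algebra.FiniteType k ((A ⧸ J) ⧸ I)) :
    Algebra.FiniteType k (A ⧸ J) := by
  have h2 : ∀ p ∈ J.map (algebraMap A P), π p ∈ J := by
    intro p hp
    induction hp using Submodule.closure_induction with
    | zero => rw [map_zero]; exact J.zero_mem
    | add x y _ _ hx hy => rw [map_add]; exact J.add_mem hx hy
    | smul_mem r x hx =>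
      obtain ⟨a, ha, rfl⟩ := hx
      rw [smul_eq_mul, mul_comm, ← Algebra.smul_def, map_smul, smul_eq_mul]
      exact J.mul_mem_right _ ha
  letI : Algebra (A ⧸ J) (P ⧸ J.map (algebraMap A P)) :=
    (Ideal.quotientMap (J.map (algebraMap A P)) (algebraMap A P) Ideal.le_comap_map).toAlgebra
  have hmk : ∀ a : A, algebraMap (A ⧸ J) (P ⧸ J.map (algebraMap A P)) (Ideal.Quotient.mk J a) =
      Ideal.Quotient.mk _ (algebraMap A P a) := fun a => rfl
  have : IsScalarTower k (A ⧸ J) (P ⧸ J.map (algebraMap A P)) := by
    refine IsScalarTower.of_algebraMap_eq fun r => ?_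
    have h3 : algebraMap k (A ⧸ J) r = Ideal.Quotient.mk J (algebraMap k A r) := rfl
    rw [h3, hmk, ← IsScalarTower.algebraMap_apply k A P]
    rfl
  let π' : (P ⧸ J.map (algebraMap A P)) →ₗ[A ⧸ J] (A ⧸ J) :=
    { toFun := Quotient.lift (fun p => Ideal.Quotient.mk J (π p)) (by
        intro p q hpq
        rw [Ideal.Quotient.eq, ← map_sub]
        apply h2
        exact (Submodule.quotientRel_def _).mp hpq)
      map_add' := by
        intro x y
        obtain ⟨p, rfl⟩ := Ideal.Quotient.mk_surjective x
        obtain ⟨q, rfl⟩ := Ideal.Quotient.mk_surjective y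
        change Ideal.Quotient.mk J (π (p + q)) = Ideal.Quotient.mk J (π p) + Ideal.Quotient.mk J (π q)
        rw [map_add, map_add]
      map_smul' := by
        intro a x
        obtain ⟨p, rfl⟩ := Ideal.Quotient.mk_surjective x
        obtain ⟨a, rfl⟩ := Ideal.Quotient.mk_surjective a
        have h4 : (Ideal.Quotient.mk J a) • (Ideal.Quotient.mk (J.map (algebraMap A P)) p) =
            Ideal.Quotient.mk (J.map (algebraMap A P)) (a • p) := by
          rw [Algebra.smul_def, hmk, ← map_mul, ← Algebra.smul_def]
        rw [h4]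
        change Ideal.Quotient.mk J (π (a • p)) = Ideal.Quotient.mk J a * Ideal.Quotient.mk J (π p)
        rw [map_smul, smul_eq_mul, map_mul] }
  refine domain_case (k := k) (A := A ⧸ J) (P := P ⧸ J.map (algebraMap A P)) π' ?_ hq
  change Ideal.Quotient.mk J (π 1) = 1
  rw [hπ, map_one]

end Quot

/-- **Theorem.** Let `P` be a finitely generated commutative algebra over a field, and let `A` be
an algebra with a homomorphism to `P` which has an `A`-linear retraction. Then `A` is finitely
generated. -/
theorem finiteType_of_retract {k A P : Type*} [Field k] [CommRing A] [Algebra k A] [CommRing P]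
    [Algebra k P] [Algebra A P] [IsScalarTower k A P] [Algebra.FiniteType k P]
    (π : P →ₗ[A] A) (hπ : π 1 = 1) : Algebra.FiniteType k A := by
  have hPN : IsNoetherianRing P := Algebra.FiniteType.isNoetherianRing k P
  have hAN : IsNoetherianRing A := noeth_of_retract π hπ
  have hwf : WellFoundedGT (Ideal A) := isNoetherian_iff'.mp hAN
  have key : ∀ J : Ideal A, Algebra.FiniteType k (A ⧸ J) := by
    intro J
    induction J using hwf.wf.induction with
    | _ J ih =>
      -- quotients of the quotient
      have hq : ∀ I : Ideal (A ⧸ J), I ≠ ⊥ → Algebra.FiniteType k ((A ⧸ J) ⧸ I) := by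
        intro I hI
        have hlt : J < I.comap (Ideal.Quotient.mk J) := by
          refine lt_of_le_of_ne ?_ fun h => hI ?_
          · intro x hx
            rw [Ideal.mem_comap, Ideal.Quotient.eq_zero_iff_mem.mpr hx]
            exact I.zero_mem
          · rw [eq_bot_iff]
            intro x hx
            obtain ⟨a, rfl⟩ := Ideal.Quotient.mk_surjective x
            have h5 : a ∈ I.comap (Ideal.Quotient.mk J) := hx
            rw [← h] at h5
            exact Ideal.Quotient.eq_zero_iff_mem.mpr h5
        have h6 := ih _ hlt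
        let ψ : (A ⧸ I.comap (Ideal.Quotient.mk J)) →ₐ[k] ((A ⧸ J) ⧸ I) :=
          Ideal.Quotient.liftₐ _ ((Ideal.Quotient.mkₐ k I).comp (Ideal.Quotient.mkₐ k J)) (by
            intro a ha
            exact Ideal.Quotient.eq_zero_iff_mem.mpr ha)
        refine Algebra.FiniteType.of_surjective ψ fun x => ?_
        obtain ⟨y, rfl⟩ := Ideal.Quotient.mk_surjective x
        obtain ⟨a, rfl⟩ := Ideal.Quotient.mk_surjective y
        exact ⟨Ideal.Quotient.mk _ a, rfl⟩
      by_cases hprime : J.IsPrime
      · exact quot_aux π hπ J hq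
      · by_cases htop : J = ⊤
        · have hsub : Subsingleton (A ⧸ J) := Ideal.Quotient.subsingleton_iff.mpr htop
          exact ⟨⟨∅, Subsingleton.elim _ _⟩⟩
        · obtain ⟨x, hx, y, hy, hxy⟩ : ∃ x, x ∉ J ∧ ∃ y, y ∉ J ∧ x * y ∈ J := by
            by_contra hcon
            push Not at hcon
            refine hprime ⟨htop, fun {x y} hxy => ?_⟩
            by_contra h
            rw [not_or] at h
            exact hcon x h.1 y h.2 hxy
          refine prod_case (Ideal.span {Ideal.Quotient.mk J x}) (Ideal.span {Ideal.Quotient.mk J y})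
            ?_ (hq _ ?_) (hq _ ?_)
          · intro a ha b hb
            obtain ⟨a', rfl⟩ := Ideal.mem_span_singleton'.mp ha
            obtain ⟨b', rfl⟩ := Ideal.mem_span_singleton'.mp hb
            have h7 : Ideal.Quotient.mk J x * Ideal.Quotient.mk J y = 0 := by
              rw [← map_mul]
              exact Ideal.Quotient.eq_zero_iff_mem.mpr hxy
            calc a' * Ideal.Quotient.mk J x * (b' * Ideal.Quotient.mk J y) =
                a' * b' * (Ideal.Quotient.mk J x * Ideal.Quotient.mk J y) := by ring
              _ = 0 := by rw [h7, mul_zero]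
          · rw [Ne, Ideal.span_singleton_eq_bot, Ideal.Quotient.eq_zero_iff_mem]
            exact hx
          · rw [Ne, Ideal.span_singleton_eq_bot, Ideal.Quotient.eq_zero_iff_mem]
            exact hy
  have h8 := key ⊥
  exact Algebra.FiniteType.equiv h8 (AlgEquiv.quotientBot k A)

end Pool.Agent.R738.FG
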