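import Pool.Agent.R738.FG.Core
import Pool.Agent.R738.FG.Generic

set_option autoImplicit false
set_option maxHeartbeats 400000

/-! # Direct summands of finitely generated algebras are finitely generated -/

namespace Pool.Agent.R738.FG

open scoped TensorProduct

/-- `a ⊗ 1 - 1 ⊗ a`. -/
noncomputable def tt (k : Type*) {A : Type*} [CommRing k] [CommRing A] [Algebra k A] (a : A) : A ⊗[k] A :=
  a ⊗ₜ[k] (1 : A) - (1 : A) ⊗ₜ[k] a

theorem tensor_fg {k A P : Type*} [Field k] [CommRing A] [Algebra k A] [CommRing P]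
    [Algebra k P] [Algebra A P] [IsScalarTower k A P] [Algebra.FiniteType k P]
    (π : P →ₗ[A] A) (hπ : π 1 = 1) :
    ∃ F : Finset A, ∀ a : A, tt k a ∈ Ideal.span (tt k '' (F : Set A)) := by
  classical
  have hN : IsNoetherianRing (P ⊗[k] P) := by
    have h0 : Algebra.FiniteType P (P ⊗[k] P) := Algebra.FiniteType.baseChange P
    have : Algebra.FiniteType k (P ⊗[k] P) := Algebra.FiniteType.trans (S := P) inferInstance h0
    exact Algebra.FiniteType.isNoetherianRing k _
  have hfg : (Submodule.span (P ⊗[k] P) (Set.range fun a : A => tt k (algebraMap A P a))).FG :=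
    (isNoetherian_def.mp hN) _
  obtain ⟨s, hs, hspan⟩ := (Submodule.fg_span_iff_fg_span_finset_subset _).mp hfg
  choose! g hg using fun (x : P ⊗[k] P) (hx : x ∈ s) => hs hx
  refine ⟨s.image g, fun a => ?_⟩
  -- the projection
  let QQ : P ⊗[k] P →ₗ[k] A ⊗[k] A := TensorProduct.map (π.restrictScalars k) (π.restrictScalars k)
  have hQQ : ∀ p q, QQ (p ⊗ₜ q) = π p ⊗ₜ π q := fun p q => rfl
  have hmul : ∀ (b : A) (p : P), π (p * algebraMap A P b) = π p * b := by
    intro b p
    rw [mul_comm p, ← Algebra.smul_def, map_smul, smul_eq_mul, mul_comm]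
  have h1 : ∀ b : A, π (algebraMap A P b) = b := by
    intro b
    have := hmul b 1
    rwa [one_mul, hπ, one_mul] at this
  have h2 : ∀ w ∈ Submodule.span (P ⊗[k] P) (s : Set (P ⊗[k] P)),
      QQ w ∈ Ideal.span (tt k '' ((s.image g : Finset A) : Set A)) := by
    intro w hw
    induction hw using Submodule.closure_induction with
    | zero => rw [map_zero]; exact Ideal.zero_mem _
    | add x y _ _ hx hy => rw [map_add]; exact Ideal.add_mem _ hx hy
    | smul_mem r x hx =>
      have hx' : tt k (algebraMap A P (g x)) = x := hg x hx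
      have hmem : tt k (g x) ∈ Ideal.span (tt k '' ((s.image g : Finset A) : Set A)) :=
        Ideal.subset_span ⟨g x, by exact_mod_cast Finset.mem_image_of_mem g (by exact_mod_cast hx), rfl⟩
      induction r using TensorProduct.induction_on with
      | zero => rw [zero_smul, map_zero]; exact Ideal.zero_mem _
      | add r r' hr hr' => rw [add_smul, map_add]; exact Ideal.add_mem _ hr hr'
      | tmul p q =>
        have h3 : ∀ c : A, tt k (algebraMap A P c) = x →
            QQ ((p ⊗ₜ[k] q) • x) = (π p ⊗ₜ[k] π q) * tt k c := by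
          rintro c rfl
          rw [tt, tt, smul_eq_mul, mul_sub, mul_sub, map_sub,
            Algebra.TensorProduct.tmul_mul_tmul, Algebra.TensorProduct.tmul_mul_tmul,
            Algebra.TensorProduct.tmul_mul_tmul, Algebra.TensorProduct.tmul_mul_tmul, hQQ, hQQ,
            hmul, hmul, mul_one, mul_one, mul_one, mul_one]
        rw [h3 _ hx']
        exact Ideal.mul_mem_left _ _ hmem
  have h4 : tt k (algebraMap A P a) ∈ Submodule.span (P ⊗[k] P) (s : Set (P ⊗[k] P)) := by
    rw [← hspan]
    exact Submodule.subset_span ⟨a, rfl⟩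
  have h5 := h2 _ h4
  rwa [tt, map_sub, hQQ, hQQ, h1, hπ] at h5

theorem domain_case {k A P : Type*} [Field k] [CommRing A] [IsDomain A] [Algebra k A] [CommRing P]
    [Algebra k P] [Algebra A P] [IsScalarTower k A P] [Algebra.FiniteType k P]
    (π : P →ₗ[A] A) (hπ : π 1 = 1)
    (hq : ∀ I : Ideal A, I ≠ ⊥ → Algebra.FiniteType k (A ⧸ I)) : Algebra.FiniteType k A := by
  classical
  have hinj : Function.Injective (algebraMap A P) := by
    intro a b hab
    have h1 : ∀ b : A, π (algebraMap A P b) = b := by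
      intro b
      rw [Algebra.algebraMap_eq_smul_one, map_smul, hπ, smul_eq_mul, mul_one]
    rw [← h1 a, ← h1 b, hab]
  obtain ⟨f, hf0, B₀, hB₀, hfB₀, hgen⟩ := generic (k := k) hinj
  have hqf := hq (Ideal.span {f}) (by rwa [Ne, Ideal.span_singleton_eq_bot])
  obtain ⟨G, hG⟩ := hqf.out
  obtain ⟨F, hF⟩ := tensor_fg (k := k) π hπ
  set S : Finset A := G.image (fun x => Function.surjInv Ideal.Quotient.mk_surjective x) ∪ F with hS
  set B : Subalgebra k A := B₀ ⊔ Algebra.adjoin k (S : Set A) with hB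
  have hBfg : B.FG := hB₀.sup (Subalgebra.fg_adjoin_finset _)
  have hSB : ∀ x ∈ S, x ∈ B := fun x hx => (le_sup_right : _ ≤ B) (Algebra.subset_adjoin
    (by exact_mod_cast hx))
  refine core (B := B) (f := f) hBfg ((le_sup_left : B₀ ≤ B) hfB₀) (fun a ha =>
    (mul_eq_zero.mp ha).resolve_left hf0) (fun a => ?_) (fun a => ?_) (fun a => ?_)
  · obtain ⟨n, hn⟩ := hgen a
    exact ⟨n, (le_sup_left : B₀ ≤ B) hn⟩
  · have h2 : ∀ x : A ⧸ Ideal.span {f}, x ∈ Algebra.adjoin k (G : Set (A ⧸ Ideal.span {f})) →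
        ∃ b ∈ B, Ideal.Quotient.mk (Ideal.span {f}) b = x := by
      intro x hx
      induction hx using Algebra.adjoin_induction with
      | mem x hx =>
        refine ⟨Function.surjInv Ideal.Quotient.mk_surjective x, hSB _ ?_,
          Function.surjInv_eq _ _⟩
        exact Finset.mem_union_left _ (Finset.mem_image_of_mem _ (by exact_mod_cast hx))
      | algebraMap r => exact ⟨algebraMap k A r, B.algebraMap_mem r, rfl⟩
      | add x y _ _ hx hy =>
        obtain ⟨a, ha, rfl⟩ := hx
        obtain ⟨b, hb, rfl⟩ := hy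
        exact ⟨a + b, B.add_mem ha hb, map_add _ _ _⟩
      | mul x y _ _ hx hy =>
        obtain ⟨a, ha, rfl⟩ := hx
        obtain ⟨b, hb, rfl⟩ := hy
        exact ⟨a * b, B.mul_mem ha hb, map_mul _ _ _⟩
    obtain ⟨b, hb, hab⟩ := h2 (Ideal.Quotient.mk _ a) (hG ▸ Algebra.mem_top)
    rw [Ideal.Quotient.eq] at hab
    obtain ⟨c, hc⟩ := Ideal.mem_span_singleton'.mp hab
    exact ⟨b, hb, -c, by linear_combination hc⟩
  · have h6 : Ideal.span (tt k '' (F : Set A)) ≤ Ideal.span {z : A ⊗[k] A | ∃ b ∈ B,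
        z = b ⊗ₜ[k] (1 : A) - (1 : A) ⊗ₜ[k] b} := by
      apply Ideal.span_mono
      rintro _ ⟨b, hb, rfl⟩
      exact ⟨b, hSB b (Finset.mem_union_right _ (by exact_mod_cast hb)), rfl⟩
    exact h6 (hF a)

/-- two ideals with zero product -/
theorem prod_case {k A : Type*} [Field k] [CommRing A] [Algebra k A] [IsNoetherianRing A]
    (I J : Ideal A) (hIJ : ∀ x ∈ I, ∀ y ∈ J, x * y = 0) (hI : Algebra.FiniteType k (A ⧸ I))
    (hJ : Algebra.FiniteType k (A ⧸ J)) : Algebra.FiniteType k A := by
  classical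
  obtain ⟨G, hG⟩ := hI.out
  obtain ⟨H, hH⟩ := hJ.out
  obtain ⟨Z, hZ⟩ := (isNoetherian_def.mp (inferInstance : IsNoetherian A A)) I
  set S : Finset A := G.image (fun x => Function.surjInv Ideal.Quotient.mk_surjective x) ∪
    H.image (fun x => Function.surjInv Ideal.Quotient.mk_surjective x) ∪ Z with hS
  set B : Subalgebra k A := Algebra.adjoin k (S : Set A) with hB
  have hSB : ∀ x ∈ S, x ∈ B := fun x hx => Algebra.subset_adjoin (by exact_mod_cast hx)
  have key : ∀ (K : Ideal A) (G : Finset (A ⧸ K)) (hG : Algebra.adjoin k (G : Set (A ⧸ K)) = ⊤)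
      (hGB : ∀ x ∈ G, Function.surjInv Ideal.Quotient.mk_surjective x ∈ B) (a : A),
      ∃ b ∈ B, a - b ∈ K := by
    intro K G hG hGB a
    have h2 : ∀ x : A ⧸ K, x ∈ Algebra.adjoin k (G : Set (A ⧸ K)) →
        ∃ b ∈ B, Ideal.Quotient.mk K b = x := by
      intro x hx
      induction hx using Algebra.adjoin_induction with
      | mem x hx => exact ⟨_, hGB x (by exact_mod_cast hx), Function.surjInv_eq _ _⟩
      | algebraMap r => exact ⟨algebraMap k A r, B.algebraMap_mem r, rfl⟩
      | add x y _ _ hx hy =>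
        obtain ⟨a, ha, rfl⟩ := hx
        obtain ⟨b, hb, rfl⟩ := hy
        exact ⟨a + b, B.add_mem ha hb, map_add _ _ _⟩
      | mul x y _ _ hx hy =>
        obtain ⟨a, ha, rfl⟩ := hx
        obtain ⟨b, hb, rfl⟩ := hy
        exact ⟨a * b, B.mul_mem ha hb, map_mul _ _ _⟩
    obtain ⟨b, hb, hab⟩ := h2 (Ideal.Quotient.mk _ a) (hG ▸ Algebra.mem_top)
    exact ⟨b, hb, (Ideal.Quotient.eq).mp hab.symm⟩
  have hTop : ∀ a : A, a ∈ B := by
    intro a
    obtain ⟨b, hb, hab⟩ := key I G hG (fun x hx => hSB _ (Finset.mem_union_left _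
      (Finset.mem_union_left _ (Finset.mem_image_of_mem _ hx)))) a
    have h3 : ∀ z ∈ I, z ∈ B := by
      intro z hz
      rw [← hZ] at hz
      induction hz using Submodule.closure_induction with
      | zero => exact B.zero_mem
      | add x y _ _ hx hy => exact B.add_mem hx hy
      | smul_mem r x hx =>
        have hxI : x ∈ I := by rw [← hZ]; exact Submodule.subset_span hx
        obtain ⟨c, hc, hrc⟩ := key J H hH (fun x hx => hSB _ (Finset.mem_union_left _
          (Finset.mem_union_right _ (Finset.mem_image_of_mem _ hx)))) r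
        have h4 : r • x = c * x := by
          have h5 := hIJ x hxI _ hrc
          rw [smul_eq_mul]
          linear_combination h5
        rw [h4]
        exact B.mul_mem hc (hSB x (Finset.mem_union_right _ (by exact_mod_cast hx)))
    have h6 : a = b + (a - b) := by ring
    rw [h6]
    exact B.add_mem hb (h3 _ hab)
  have hBT : B = ⊤ := Algebra.eq_top_iff.mpr hTop
  exact ⟨hBT ▸ Subalgebra.fg_adjoin_finset _⟩

end Pool.Agent.R738.FG
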